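import Pool.Agent.Work.MP_497bf6_gt.M0.Aff

/-! The linear parts keep the Barnes-Wall lattice in every block, so they form a finite group. -/

set_option autoImplicit false

namespace Pool.Agent.IV

open Matrix Finset

/-- the number of binary digits one, below eight -/
def pc (k : ℕ) : ℕ := k % 2 + k / 2 % 2 + k / 4 % 2

/-- a basis of the lattice -/
def Bf (j k : ℕ) : GaussianInt := if k &&& j = k then th ^ pc k else 0

/-- its inverse, times the cube of `1 - i` -/
def Bg (k j : ℕ) : GaussianInt :=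
  if k &&& j = j then (-1) ^ (pc k + pc j) * th ^ (3 - pc k) else 0

/-- the basis as a matrix -/
def BM : Matrix (Fin 8) (Fin 8) GaussianInt := fun j k => Bf j k

/-- the scaled inverse as a matrix -/
def BI : Matrix (Fin 8) (Fin 8) GaussianInt := fun j k => Bg j k

/-- the linear block -/
def N8 (d : ℕ) : Matrix (Fin 8) (Fin 8) GaussianInt := fun j k => NM d j.castSucc k.castSucc

/-- a row of the linear block times the basis -/
def nb (r k : ℕ) : GaussianInt :=
  im ^ (r / 8 % 4) * Bf (r % 8) k + im ^ (r / 256 % 4) * Bf (r / 32 % 8) k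

theorem N8_BM (d : ℕ) (a k : Fin 8) : (N8 d * BM) a k = nb (rw16 d a) k := by
  have h := rowM_sum (RingHom.id GaussianInt) (rw16 d a)
    (fun m : Fin 9 => if (m : ℕ) < 8 then Bf m k else 0)
  rw [Fin.sum_univ_castSucc] at h
  have h1 : rw16 d a % 8 < 8 := Nat.mod_lt _ (by norm_num)
  have h2 : rw16 d a / 32 % 8 < 8 := Nat.mod_lt _ (by norm_num)
  have h3 : (a : ℕ) ≠ 8 := by omega
  simp only [RingHom.id_apply, Fin.val_castSucc, Fin.is_lt, if_true, h1, h2] at h
  simp only [Matrix.mul_apply, N8, BM, NM, Fin.val_castSucc, h3, if_false, nb]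
  simpa using h

theorem BM_BI : BM * BI = th ^ 3 • (1 : Matrix (Fin 8) (Fin 8) GaussianInt) := by
  decide +kernel

/-- divisibility by four -/
def four (z : GaussianInt) : Bool := z.re % 4 == 0 && z.im % 4 == 0

/-- the check of one block -/
def okB (d : ℕ) : Bool := (List.range 8).all fun j => (List.range 8).all fun k =>
  four (∑ a ∈ Finset.range 8, if j &&& a = a then Bg j a * nb (rw16 d a) k else 0)

theorem fin_prs_ok : (aff_prs.all fun p => okB p.2) = true := by decide +kernel

theorem fin_same {d e : ℕ} (h : aff_same d e = true) : okB d = okB e := by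
  have h1 : ∀ a ∈ Finset.range 8, ∀ k, nb (rw16 d a) k = nb (rw16 e a) k := fun a ha k => by
    have h1 := aff_same_rw h (Finset.mem_range.1 ha)
    simp only [nb]
    generalize rw16 d a = r, rw16 e a = s at h1
    rw [show r % 8 = s % 8 by omega, show r / 8 % 4 = s / 8 % 4 by omega,
      show r / 32 % 8 = s / 32 % 8 by omega, show r / 256 % 4 = s / 256 % 4 by omega]
  unfold okB
  refine congrArg _ (funext fun j => congrArg _ (funext fun k => congrArg _ ?_))
  exact Finset.sum_congr rfl fun a ha => by rw [h1 a ha]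

theorem okB_dat : ∀ l < 14, ∀ q < 28, force (dat l q) okB = true := fun l hl q hq => by
  have h := aff_cov l hl q hq
  rw [force_eq, force_eq, List.any_eq_true] at h
  obtain ⟨p, hp, h⟩ := h
  rw [Bool.and_eq_true] at h
  rw [force_eq, fin_same h.1]
  exact List.all_eq_true.1 fin_prs_ok p hp

theorem four_dvd {z : GaussianInt} (h : four z = true) : ∃ m, z = 4 * m := by
  simp only [four, Bool.and_eq_true, beq_iff_eq] at h
  refine ⟨⟨z.re / 4, z.im / 4⟩, ?_⟩
  have e : (4 : GaussianInt) = ⟨4, 0⟩ := rfl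
  rw [e]
  ext <;> simp <;> omega

theorem exists_M {d : ℕ} (h : okB d = true) :
    ∃ M : Matrix (Fin 8) (Fin 8) GaussianInt, N8 d * BM = th • (BM * M) := by
  have h1 : ∀ j k : Fin 8, ∃ m, (BI * (N8 d * BM)) j k = 4 * m := by
    intro j k
    simp only [okB, List.all_eq_true, List.mem_range] at h
    obtain ⟨m, hm⟩ := four_dvd (h j j.2 k k.2)
    refine ⟨m, ?_⟩
    rw [← hm, Matrix.mul_apply, Finset.sum_range]
    refine Finset.sum_congr rfl fun a _ => ?_
    rw [N8_BM]
    split_ifs with ha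
    · rfl
    · simp [BI, Bg, ha]
  choose m hm using h1
  refine ⟨-Matrix.of m, ?_⟩
  have h2 : BI * (N8 d * BM) = (4 : GaussianInt) • Matrix.of m := by
    ext1 j k; simpa using hm j k
  have h3 : th ^ 3 • (N8 d * BM) = th ^ 3 • th • (BM * -Matrix.of m) := by
    have e : th ^ 3 * th = -4 := by decide
    rw [smul_smul, e, ← Matrix.one_mul (N8 d * BM), ← Matrix.smul_mul, ← BM_BI, Matrix.mul_assoc,
      h2, Matrix.mul_smul, Matrix.mul_neg, smul_neg, neg_smul, neg_neg]
  exact smul_right_injective _ (by decide : th ^ 3 ≠ 0) h3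

/-- the lattice -/
def InL (v : V) : Prop := ∀ q : Fin 28, ∃ z : Fin 8 → GaussianInt, ∀ j,
  v (q, j) = GaussianInt.toComplex ((BM *ᵥ z) j)

theorem InL.lin {l : ℕ} (hl : l < 14) {v : V} (h : InL v) : InL (lin l v) := by
  intro q
  obtain ⟨z, hz⟩ := h (nx (iv l) q)
  have h0 := okB_dat l hl _ (nx (iv l) q).2
  rw [force_eq] at h0
  obtain ⟨M, hM⟩ := exists_M h0
  refine ⟨M *ᵥ z, fun j => ?_⟩
  have h1 : (N8 (dat l (nx (iv l) q)) *ᵥ (BM *ᵥ z)) j = th * (BM *ᵥ (M *ᵥ z)) j := by
    rw [Matrix.mulVec_mulVec, Matrix.mulVec_mulVec, hM, Matrix.smul_mulVec]; rfl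
  have h2 := congrArg GaussianInt.toComplex h1
  rw [map_mul, ← thc] at h2
  rw [lin_apply, ← inv_mul_cancel_left₀ thc_ne (GaussianInt.toComplex _), ← h2]
  simp only [hz, cN, mul_assoc, ← Finset.mul_sum]
  congr 1
  generalize BM *ᵥ z = u
  simp [Matrix.mulVec, dotProduct, N8]

/-- the affine isometries whose linear part keeps the lattice -/
def LatG : Subgroup (V ≃ᵃⁱ[ℂ] V) where
  carrier := {f | ∀ v, InL (linPart f v) ↔ InL v}
  one_mem' := fun v => by simp
  mul_mem' := fun {f g} hf hg v => by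
    rw [map_mul]
    exact (hf _).trans (hg v)
  inv_mem' := fun {f} hf v => by
    rw [← hf, map_inv]
    simp

theorem gen_mem (g : Fin 7) : gen g ∈ LatG := fun v => by
  have hg : (g : ℕ) < 14 := by omega
  have e : linPart (gen g) v = lin g v := gen_lin g v
  rw [e]
  refine ⟨fun h => ?_, fun h => h.lin hg⟩
  have := h.lin (iv_iv g hg).2
  rwa [lin_iv hg] at this

theorem Phi0_mem (r : FreeGroup (Fin 7)) : Phi0 r ∈ LatG := by
  induction r using FreeGroup.induction_on with
  | C1 => simp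
  | of x => simpa [Phi0] using gen_mem x
  | inv_of x h => simpa using h
  | mul x y hx hy => simpa using LatG.mul_mem hx hy

theorem fin_ball (C : ℝ) : {v : V | InL v ∧ ‖v‖ ≤ C}.Finite := by
  have h0 : {z : GaussianInt | ‖GaussianInt.toComplex z‖ ≤ C}.Finite := by
    refine (((Set.finite_Icc (-⌈C⌉) ⌈C⌉).prod (Set.finite_Icc (-⌈C⌉) ⌈C⌉)).image
      fun p : ℤ × ℤ => (⟨p.1, p.2⟩ : GaussianInt)).subset fun z hz => ?_
    have h1 := (Complex.abs_re_le_norm _).trans (hz.trans (Int.le_ceil C))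
    have h2 := (Complex.abs_im_le_norm _).trans (hz.trans (Int.le_ceil C))
    rw [← GaussianInt.intCast_re] at h1
    rw [← GaussianInt.intCast_im] at h2
    exact ⟨(z.re, z.im), ⟨abs_le.1 (by exact_mod_cast h1), abs_le.1 (by exact_mod_cast h2)⟩, rfl⟩
  refine ((Set.Finite.pi' fun _ : Fin 28 × Fin 8 => h0.image GaussianInt.toComplex).image
    (WithLp.toLp 2)).subset ?_
  rintro v ⟨hv, hC⟩
  refine ⟨v.ofLp, fun x => ?_, rfl⟩
  obtain ⟨z, hz⟩ := hv x.1
  refine ⟨_, ?_, (hz x.2).symm⟩
  show ‖GaussianInt.toComplex _‖ ≤ C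
  rw [← hz]
  exact (PiLp.norm_apply_le v _).trans hC

theorem InL_single (x : Fin 28 × Fin 8) : InL (EuclideanSpace.single x (thc ^ 3)) := by
  intro q
  by_cases hq : q = x.1
  · refine ⟨fun k => BI k x.2, fun j => ?_⟩
    have h := congrFun (congrFun BM_BI j) x.2
    have e : (BM *ᵥ fun k => BI k x.2) j = (BM * BI) j x.2 := rfl
    rw [e, h]
    obtain ⟨p, k⟩ := x
    simp only at hq
    subst hq
    by_cases hj : j = k <;> simp [hj, thc, Matrix.one_apply]
  · refine ⟨0, fun j => ?_⟩
    have : (q, j) ≠ x := fun h => hq (by rw [← h])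
    simp [this]

/-- the linear parts of the elements of `LatG` form a finite set -/
theorem finite_LatG : (linPart '' (LatG : Set (V ≃ᵃⁱ[ℂ] V))).Finite := by
  refine Set.Finite.of_finite_image
    (f := fun (u : V ≃ₗᵢ[ℂ] V) (x : Fin 28 × Fin 8) => u (EuclideanSpace.single x (thc ^ 3)))
    ((Set.Finite.pi' fun _ => fin_ball ‖thc ^ 3‖).subset ?_) ?_
  · rintro _ ⟨_, ⟨f, hf, rfl⟩, rfl⟩ x
    exact ⟨(hf _).2 (InL_single x), by simp⟩
  · rintro u - u' - h
    have h1 : ∀ x, u (EuclideanSpace.single x 1) = u' (EuclideanSpace.single x 1) := by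
      intro x
      have h2 := congrFun h x
      have e : (EuclideanSpace.single x (thc ^ 3) : V) = thc ^ 3 • EuclideanSpace.single x 1 := by
        ext y; simp [Pi.single_apply]
      simp only [e, map_smul] at h2
      exact smul_right_injective _ (pow_ne_zero 3 thc_ne) h2
    apply LinearIsometryEquiv.toLinearEquiv_injective
    apply (EuclideanSpace.basisFun _ ℂ).toBasis.ext'
    intro x
    simpa using h1 x

/-- a homomorphism into `LatG` has a linear part with finite image -/
theorem finite_range {G : Type*} (Φ : G → (V ≃ᵃⁱ[ℂ] V)) (h : ∀ g, Φ g ∈ LatG) :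
    (Set.range fun g v => linPart (Φ g) v).Finite :=
  (finite_LatG.image fun (u : V ≃ₗᵢ[ℂ] V) (v : V) => u v).subset <| by
    rintro _ ⟨g, rfl⟩
    exact ⟨_, ⟨_, h g, rfl⟩, rfl⟩

end Pool.Agent.IV
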