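import Pool.Agent.Work.MP_497bf6_gt.M0.Snd

/-! The affine isometric action of the free group on seven generators on `ℂ ^ (28 * 8)` and the
soundness of the evaluator for it. -/

set_option autoImplicit false

namespace Pool.Agent.IV

open Matrix Finset

noncomputable section

/-- the space -/
abbrev V := EuclideanSpace ℂ (Fin 28 × Fin 8)

/-- the target block of a letter -/
def nx (l : ℕ) (q : Fin 28) : Fin 28 := ⟨tgt (dat l q), Nat.mod_lt _ (by norm_num)⟩

/-- the inverse letter -/
def iv (l : ℕ) : ℕ := (l + 7) % 14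

/-- the number `1 - i` -/
def thc : ℂ := GaussianInt.toComplex th

theorem thc_ne : thc ≠ 0 := by
  rw [thc, Ne, GaussianInt.toComplex_eq_zero]; decide

/-- the homogeneous complex matrix -/
def cN (l q : ℕ) (j k : Fin 9) : ℂ := thc⁻¹ * GaussianInt.toComplex (NM (dat l q) j k)

/-- the linear part as a matrix -/
def UB (l : ℕ) : Matrix (Fin 28 × Fin 8) (Fin 28 × Fin 8) ℂ := fun x y =>
  if y.1 = nx (iv l) x.1 then cN l y.1 x.2.castSucc y.2.castSucc else 0

/-- the translation part -/
def tB (l : ℕ) : V := WithLp.toLp 2 fun x => cN l (nx (iv l) x.1) x.2.castSucc 8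

/-- the linear part -/
def lin (l : ℕ) : V →ₗ[ℂ] V := Matrix.toEuclideanLin (UB l)

/-- the affine map (`σ = 1`) or its linear part (`σ = 0`) -/
def aff (σ : ℂ) (l : ℕ) (v : V) : V := lin l v + σ • tB l

/-- homogeneous coordinates on a block -/
def hv (σ : ℂ) (v : V) (q : ℕ) (k : Fin 9) : ℂ :=
  if h : (k : ℕ) < 8 then v (⟨q % 28, Nat.mod_lt _ (by norm_num)⟩, ⟨k, h⟩) else σ

theorem nx_iv : ∀ l < 14, ∀ q : Fin 28, nx (iv l) (nx l q) = q := by decide +kernel

theorem lin_apply (l : ℕ) (v : V) (x : Fin 28 × Fin 8) :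
    lin l v x = ∑ k : Fin 8, cN l (nx (iv l) x.1) x.2.castSucc k.castSucc *
      v (nx (iv l) x.1, k) := by
  simp only [lin, Matrix.toLpLin_apply, Matrix.mulVec, dotProduct, UB,
    Fintype.sum_prod_type, ite_mul, zero_mul]
  rw [Finset.sum_comm]
  simp

theorem hv_aff (σ : ℂ) {l : ℕ} (hl : l < 14) (v : V) {q : ℕ} (hq : q < 28) :
    hv σ (aff σ l v) (tgt (dat l q)) =
      thc⁻¹ • ((NM (dat l q)).map GaussianInt.toComplex) *ᵥ hv σ v q := by
  funext j
  have hq' : q % 28 = q := Nat.mod_eq_of_lt hq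
  simp only [Pi.smul_apply, smul_eq_mul, Matrix.mulVec, dotProduct, Matrix.map_apply]
  by_cases hj : (j : ℕ) < 8
  · have e : (⟨tgt (dat l q) % 28, Nat.mod_lt _ (by norm_num)⟩ : Fin 28) = nx l ⟨q, hq⟩ :=
      Fin.ext (Nat.mod_mod _ _)
    have e2 : (⟨j, hj⟩ : Fin 8).castSucc = j := rfl
    rw [hv, dif_pos hj, e, aff, PiLp.add_apply, lin_apply, Fin.sum_univ_castSucc (n := 8)]
    simp only [PiLp.smul_apply, tB, nx_iv l hl, e2, cN, hv, Fin.val_castSucc, Fin.is_lt, dif_pos,
      hq', Fin.eta, Fin.val_last, lt_self_iff_false, dif_neg, not_false_eq_true, smul_eq_mul,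
      mul_add, Finset.mul_sum, mul_assoc]
    congr 1
    rw [show Fin.last 8 = 8 from rfl]; ring
  · have h8 : (j : ℕ) = 8 := by omega
    rw [hv, dif_neg hj]
    simp only [NM, h8, if_true, apply_ite GaussianInt.toComplex, map_zero]
    rw [sum_ite_val 8 (by omega), ← thc, ← mul_assoc, inv_mul_cancel₀ thc_ne, one_mul, hv,
      dif_neg (by simp)]

theorem hv_word (σ : ℂ) (w : List ℕ) (hw : ∀ l ∈ w, l < 14) (v : V) {q : ℕ} (hq : q < 28) :
    hv σ (w.foldl (fun v l => aff σ l v) v) (wq w q) =
      (thc⁻¹ ^ w.length) • ((WM w q).map GaussianInt.toComplex) *ᵥ hv σ v q := by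
  induction w generalizing v q with
  | nil => simp [wq, WM]
  | cons l w ih =>
    rw [List.foldl_cons, wq, ih (fun l' h => hw l' (List.mem_cons_of_mem _ h)) _
      (q := tgt (dat l q)) (Nat.mod_lt _ (by norm_num)), hv_aff σ (hw l List.mem_cons_self) v hq,
      Matrix.mulVec_smul, Matrix.mulVec_mulVec, ← Matrix.map_mul, smul_smul, List.length_cons,
      pow_succ]
    rfl

theorem word_eq {σ : ℕ} (hσ : σ ≤ 1) {w : List ℕ} (hw : ∀ l ∈ w, l < 14) (h : chk σ w = true)
    (v : V) : w.foldl (fun v l => aff σ l v) v = v := by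
  ext ⟨q, j⟩
  obtain ⟨h1, h2⟩ := chk_sound hσ h q q.2
  have h3 := congrFun (hv_word σ w hw v q.2) j.castSucc
  have hq : (⟨(q : ℕ) % 28, Nat.mod_lt _ (by norm_num)⟩ : Fin 28) = q :=
    Fin.ext (Nat.mod_eq_of_lt q.2)
  rw [h1, hv, dif_pos (by simp), hq] at h3
  refine h3.trans ?_
  simp only [Pi.smul_apply, smul_eq_mul, Matrix.mulVec, dotProduct, Matrix.map_apply]
  rw [Finset.sum_eq_single j.castSucc, h2 _ _ (by have := j.2; simp; omega), if_pos rfl, map_pow,
    ← thc, ← mul_assoc, ← mul_pow, inv_mul_cancel₀ thc_ne, one_pow, one_mul, hv,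
    dif_pos (by simp), hq]
  · rfl
  · intro k _ hk
    by_cases h8 : (k : ℕ) = 8 → σ = 1
    · rw [h2 _ _ h8, if_neg hk.symm, map_zero, zero_mul]
    · push Not at h8
      have : σ = 0 := by omega
      rw [hv, dif_neg (by omega), this, Nat.cast_zero, mul_zero]
  · simp

/-- equal linear parts -/
def aff_same (d e : ℕ) : Bool :=
  (List.range 8).all fun a => Nat.beq (rw16 d a % 1024) (rw16 e a % 1024)

theorem aff_same_rw {d e : ℕ} (h : aff_same d e = true) {a : ℕ} (ha : a < 8) :
    rw16 d a % 1024 = rw16 e a % 1024 :=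
  Nat.eq_of_beq_eq_true (List.all_eq_true.1 h a (List.mem_range.2 ha))

theorem aff_same_NM {d e : ℕ} (h : aff_same d e = true) (j k : Fin 8) :
    NM d j.castSucc k.castSucc = NM e j.castSucc k.castSucc := by
  have h1 := aff_same_rw h j.2
  have h2 : (j : ℕ) ≠ 8 := by omega
  have h3 : (k : ℕ) ≠ 8 := by omega
  simp only [NM, rowM, Fin.val_castSucc, h2, h3, if_false]
  generalize rw16 d j = r, rw16 e j = s at h1
  rw [show r % 8 = s % 8 by omega, show r / 8 % 4 = s / 8 % 4 by omega,
    show r / 32 % 8 = s / 32 % 8 by omega, show r / 256 % 4 = s / 256 % 4 by omega]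

/-- the pairs of linear parts of a letter and its inverse -/
def aff_prs : List (ℕ × ℕ) :=
  [(0x3e703c602bd029c027b025a0321030000, 0x3e703c600ad008c006b004a0321030000),
    (0x3e703c600ad008c006b004a0321030000, 0x3e703c602bd029c027b025a0321030000),
    (0x3e703c600ad008c036303420029000800, 0x3e703c602bd029c036303420239021800),
    (0x3e703c602bd029c036303420239021800, 0x3e703c600ad008c036303420029000800),
    (0x3f602fe03b402bc0372027a0330023800, 0xee01e600ac01a4006a01620028012000),
    (0xee01e600ac01a4006a01620028012000, 0x3f602fe03b402bc0372027a0330023800),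
    (0xe900c800ab008a01a3018201e101c000, 0x3f103d003b3039202bb029a02f902d800),
    (0x3f103d003b3039202bb029a02f902d800, 0xe900c800ab008a01a3018201e101c000),
    (0x3f403d502dd02fc037003510259027800, 0xec00cd01c501e4006800490141016000),
    (0xec00cd01c501e4006800490141016000, 0x3f403d502dd02fc037003510259027800),
    (0x3e703c603a50384027b025a0239021800, 0x3e703c603a50384006b004a0029000800),
    (0x3e703c603a50384006b004a0029000800, 0x3e703c603a50384027b025a0239021800),
    (0x3e702de03a5029c0363025a0321021800, 0x3e700ce03a5008c0363004a0321000800),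
    (0x3e700ce03a5008c0363004a0321000800, 0x3e702de03a5029c0363025a0321021800),
    (0xef00ce00ad008c036303420321030000, 0x2ff02de02bd029c036303420321030000),
    (0x2ff02de02bd029c036303420321030000, 0xef00ce00ad008c036303420321030000),
    (0xef00ce03a50384036303420029000800, 0x2ff02de03a50384036303420239021800),
    (0x2ff02de03a50384036303420239021800, 0xef00ce03a50384036303420029000800),
    (0x1b3019201f101d002e902c802ab028a00, 0x2ab028a02e902c801f101d001b3019200),
    (0x2ab028a02e902c801f101d001b3019200, 0x1b3019201f101d002e902c802ab028a00),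
    (0x1d501f402ec02cd015101700268024900, 0x2cd02ec01f401d5024902680170015100),
    (0x2cd02ec01f401d5024902680170015100, 0x1d501f402ec02cd015101700268024900),
    (0x1f702de01b5029c0173025a0131021800, 0x1f700ce01b5008c0173004a0131000800),
    (0x1f700ce01b5008c0173004a0131000800, 0x1f702de01b5029c0173025a0131021800),
    (0x3e600fe03a400bc0362007a0320003800, 0xfe03e600bc03a4007a03620038032000),
    (0xfe03e600bc03a4007a03620038032000, 0x3e600fe03a400bc0362007a0320003800),
    (0x3e103c003a3038200bb009a00f900d800, 0xf900d800bb009a03a3038203e103c000),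
    (0x2f902d802bb029a03b3039203f103d000, 0x1e101c001a3018200ab008a00e900c800),
    (0xf900d800bb009a03a3038203e103c000, 0x3e103c003a3038200bb009a00f900d800),
    (0x1e101c001a3018200ab008a00e900c800, 0x2f902d802bb029a03b3039203f103d000),
    (0x1f701d600ad008c036303420239021800, 0x1f701d602bd029c036303420029000800),
    (0x1f701d602bd029c036303420029000800, 0x1f701d600ad008c036303420239021800),
    (0xef00ce03a50384027b025a0131011000, 0x2ff02de03a50384006b004a0131011000),
    (0x2ff02de03a50384006b004a0131011000, 0xef00ce03a50384027b025a0131011000),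
    (0x2fc02dd03d503f4027802590351037000, 0x1e401c500cd00ec016001410049006800),
    (0x1e401c500cd00ec016001410049006800, 0x2fc02dd03d503f4027802590351037000),
    (0x1f401d502cd02ec017001510249026800, 0x2ec02cd01d501f4026802490151017000),
    (0x2ec02cd01d501f4026802490151017000, 0x1f401d502cd02ec017001510249026800),
    (0x2ff03c602bd0384027b03420239030000, 0xef03c600ad0384006b03420029030000),
    (0xef03c600ad0384006b03420029030000, 0x2ff03c602bd0384027b03420239030000),
    (0x2ff01d600ad0384006b03420239011000, 0xef01d602bd0384027b03420029011000),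
    (0xef01d602bd0384027b03420029011000, 0x2ff01d600ad0384006b03420239011000),
    (0x1f700ce03a5029c0363025a0131000800, 0x1f702de03a5008c0363004a0131021800),
    (0x1f702de03a5008c0363004a0131021800, 0x1f700ce03a5029c0363025a0131000800)]

theorem aff_prs_ok : ∀ p ∈ aff_prs, ∀ j k : Fin 8,
    NM p.1 j.castSucc k.castSucc * star th = star (NM p.2 k.castSucc j.castSucc) * th := by
  decide +kernel

theorem aff_cov : ∀ l < 14, ∀ q < 28, (force (dat l q) fun d => force (dat (iv l) (tgt d)) fun e =>
    aff_prs.any fun p => aff_same d p.2 && aff_same e p.1) = true := by decide +kernel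

theorem adj_dat : ∀ l < 14, ∀ q : Fin 28, ∀ j k : Fin 8,
    NM (dat (iv l) (nx l q)) j.castSucc k.castSucc * star th =
      star (NM (dat l q) k.castSucc j.castSucc) * th := fun l hl q j k => by
  have h := aff_cov l hl q q.2
  rw [force_eq, force_eq, List.any_eq_true] at h
  obtain ⟨p, hp, h⟩ := h
  rw [Bool.and_eq_true] at h
  rw [aff_same_NM h.1, ← aff_prs_ok p hp, ← aff_same_NM h.2]
  rfl

theorem iv_iv : ∀ l < 14, iv (iv l) = l ∧ iv l < 14 := by decide

theorem UB_adj {l : ℕ} (hl : l < 14) : UB (iv l) = (UB l)ᴴ := by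
  ext ⟨q, j⟩ ⟨p, k⟩
  simp only [UB, Matrix.conjTranspose_apply, (iv_iv l hl).1]
  by_cases h : p = nx l q
  · subst h
    rw [if_pos rfl, if_pos (nx_iv l hl q).symm, cN, cN]
    have h1 := congrArg GaussianInt.toComplex (adj_dat l hl q j k)
    simp only [map_mul, GaussianInt.toComplex_star, ← thc.eq_1] at h1
    have h2 : (starRingEnd ℂ) thc ≠ 0 := by simpa using thc_ne
    have h3 := thc_ne
    simp only [star_mul', star_inv₀, RCLike.star_def]
    field_simp
    linear_combination h1
  · rw [if_neg h, if_neg, star_zero]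
    intro h'
    apply h
    have := nx_iv (iv l) (iv_iv l hl).2 p
    rw [(iv_iv l hl).1] at this
    rw [h', this]

theorem chk_iv : ∀ l < 14, chk 1 [l, iv l] = true ∧ chk 0 [l, iv l] = true := by decide +kernel

theorem aff_iv {σ : ℕ} (hσ : σ ≤ 1) {l : ℕ} (hl : l < 14) (v : V) :
    aff σ (iv l) (aff σ l v) = v := by
  have hw : ∀ l' ∈ [l, iv l], l' < 14 := by
    simp only [List.mem_cons, List.not_mem_nil, or_false]
    rintro _ (rfl | rfl)
    exacts [hl, (iv_iv l hl).2]
  refine word_eq hσ hw ?_ v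
  interval_cases σ
  exacts [(chk_iv l hl).2, (chk_iv l hl).1]

theorem lin_iv {l : ℕ} (hl : l < 14) (v : V) : lin (iv l) (lin l v) = v := by
  simpa [aff] using aff_iv (σ := 0) (by norm_num) hl v

/-- the linear part as an isometry -/
def linE (l : Fin 14) : V ≃ₗᵢ[ℂ] V :=
  LinearEquiv.isometryOfInner
    (LinearEquiv.ofLinearMap (lin l) (lin (iv l))
      (LinearMap.ext fun v => by
        have := lin_iv (iv_iv l l.2).2 v
        rwa [(iv_iv l l.2).1] at this)
      (LinearMap.ext fun v => lin_iv l.2 v))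
    (fun x y => by
      show inner ℂ (lin l x) (lin l y) = _
      rw [← LinearMap.adjoint_inner_right, lin,
        ← Matrix.toEuclideanLin_conjTranspose_eq_adjoint, ← UB_adj l.2]
      exact congrArg _ (lin_iv l.2 y))

/-- the generators as affine isometries -/
def gen (g : Fin 7) : V ≃ᵃⁱ[ℂ] V :=
  AffineIsometryEquiv.mk' (aff 1 g) (linE (g.castLE (by norm_num))) 0 fun v => by
    simp [aff, linE]

theorem gen_apply (g : Fin 7) (v : V) : gen g v = aff 1 g v := rfl

theorem gen_lin (g : Fin 7) (v : V) : (gen g).linearIsometryEquiv v = lin g v := by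
  simp [gen, linE]

/-- the linear part of an affine isometry -/
def linPart : (V ≃ᵃⁱ[ℂ] V) →* (V ≃ₗᵢ[ℂ] V) where
  toFun f := f.linearIsometryEquiv
  map_one' := rfl
  map_mul' _ _ := rfl

theorem linPart_apply (f : V ≃ᵃⁱ[ℂ] V) (v : V) : f v = linPart f v + f 0 := by
  simpa [linPart] using f.map_vadd 0 v

/-- the action of the free group -/
def Phi0 : FreeGroup (Fin 7) →* (V ≃ᵃⁱ[ℂ] V) := FreeGroup.lift gen

end

/-- the letter of a generator or its inverse -/
def ltr (x : Fin 7 × Bool) : ℕ := bif x.2 then x.1 else x.1 + 7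

/-- the letters of a word in the order in which they act -/
def code (L : List (Fin 7 × Bool)) : List ℕ := (L.map ltr).reverse

theorem ltr_lt (x : Fin 7 × Bool) : ltr x < 14 := by
  obtain ⟨g, _ | _⟩ := x <;> simp only [ltr, cond_true, cond_false] <;> omega

theorem code_lt (L : List (Fin 7 × Bool)) : ∀ l ∈ code L, l < 14 := by
  simp only [code, List.mem_reverse, List.mem_map]
  rintro _ ⟨x, -, rfl⟩
  exact ltr_lt x

theorem iv_gen (g : Fin 7) : iv g = g + 7 := Nat.mod_eq_of_lt (by omega)

theorem ltr_apply (x : Fin 7 × Bool) (v : V) :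
    (bif x.2 then gen x.1 else (gen x.1)⁻¹) v = aff 1 (ltr x) v := by
  obtain ⟨g, _ | _⟩ := x
  · have := aff_iv (σ := 1) le_rfl (l := iv g) (iv_iv g (by omega)).2 v
    rw [(iv_iv g (by omega)).1, Nat.cast_one, ← gen_apply, iv_gen] at this
    exact (AffineIsometryEquiv.symm_apply_eq _).2 this.symm
  · rfl

theorem ltr_lin (x : Fin 7 × Bool) (v : V) :
    linPart (bif x.2 then gen x.1 else (gen x.1)⁻¹) v = aff 0 (ltr x) v := by
  have h := linPart_apply (bif x.2 then gen x.1 else (gen x.1)⁻¹) v
  rw [ltr_apply, ltr_apply] at h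
  simp only [aff, map_zero, zero_add, add_left_inj, zero_smul, add_zero] at h ⊢
  exact h.symm

theorem Phi0_mk (L : List (Fin 7 × Bool)) (v : V) :
    Phi0 (FreeGroup.mk L) v = (code L).foldl (fun v l => aff 1 l v) v ∧
      linPart (Phi0 (FreeGroup.mk L)) v = (code L).foldl (fun v l => aff 0 l v) v := by
  rw [Phi0, FreeGroup.lift_mk, code, List.foldl_reverse, List.foldl_reverse]
  induction L with
  | nil => exact ⟨rfl, rfl⟩
  | cons x L ih =>
    simp only [List.map_cons, List.prod_cons, List.foldr_cons, ← ih.1, ← ih.2, map_mul]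
    exact ⟨ltr_apply x _, ltr_lin x _⟩

/-- a checked word acts trivially -/
theorem Phi0_eq_one (r : FreeGroup (Fin 7)) (h : chk 1 (code r.toWord) = true) : Phi0 r = 1 := by
  ext1 v
  have := (Phi0_mk r.toWord v).1
  rw [FreeGroup.mk_toWord] at this
  rw [this]
  simpa using word_eq le_rfl (code_lt _) h v

/-- a word with trivial linear part -/
theorem linPart_eq_one (r : FreeGroup (Fin 7)) (h : chk 0 (code r.toWord) = true) :
    linPart (Phi0 r) = 1 := by
  ext1 v
  have := (Phi0_mk r.toWord v).2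
  rw [FreeGroup.mk_toWord] at this
  rw [this]
  simpa using word_eq (σ := 0) (by norm_num) (code_lt _) h v

/-- a word that moves the origin -/
theorem Phi0_zero_ne (r : FreeGroup (Fin 7)) {q : ℕ}
    (hq : q < 28) (h' : nz (code r.toWord) q = false) : Phi0 r 0 ≠ 0 := by
  intro h0
  have h1 := (Phi0_mk r.toWord 0).1
  rw [FreeGroup.mk_toWord, h0] at h1
  have h2 := congrFun (hv_word 1 _ (code_lt r.toWord) 0 hq) 2
  rw [← h1] at h2
  apply nz_sound h'
  simp [hv, Matrix.mulVec, dotProduct, Fin.sum_univ_succ, thc_ne] at h2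
  exact h2

end Pool.Agent.IV
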